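import Mathlib

/-! Combinatorics of popular values in a list, digit extraction, and primitive recursiveness. -/

namespace Pool.Agent.Lib.MP_2c929a_lc

/-- one step: `s.1` is the list of values seen so far, `s.2` the list of values whose
`(D+1)`-st occurrence has been seen. -/
def popStep (D : ℕ) (s : List ℕ × List ℕ) (x : ℕ) : List ℕ × List ℕ :=
  (s.1 ++ [x], if s.1.count x = D then s.2 ++ [x] else s.2)

/-- the list of the values that occur at least `D+1` times in `U` -/
def pop (D : ℕ) (U : List ℕ) : List ℕ := (U.foldl (popStep D) ([], [])).2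

theorem pop_fst (D : ℕ) (U : List ℕ) : (U.foldl (popStep D) ([], [])).1 = U := by
  induction U using List.reverseRecOn with
  | nil => rfl
  | append_singleton l a ih => simp [List.foldl_append, popStep, ih]

theorem pop_append (D : ℕ) (U : List ℕ) (x : ℕ) :
    pop D (U ++ [x]) = if U.count x = D then pop D U ++ [x] else pop D U := by
  simp only [pop, List.foldl_append, List.foldl_cons, List.foldl_nil]
  rw [show popStep D (List.foldl (popStep D) ([], []) U) x =
    ((List.foldl (popStep D) ([], []) U).1 ++ [x],
      if (List.foldl (popStep D) ([], []) U).1.count x = D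
      then (List.foldl (popStep D) ([], []) U).2 ++ [x]
      else (List.foldl (popStep D) ([], []) U).2) from rfl]
  rw [pop_fst]

theorem pop_count (D : ℕ) (U : List ℕ) (c : ℕ) :
    (pop D U).count c = if D < U.count c then 1 else 0 := by
  induction U using List.reverseRecOn with
  | nil => simp [pop]
  | append_singleton l a ih =>
    rw [pop_append]
    by_cases hac : a = c
    · subst hac
      by_cases h : l.count a = D
      · simp [h, ih]
      · simp only [h, if_false, ih, List.count_append, List.count_singleton_self]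
        by_cases h2 : D < l.count a
        · simp [h2, Nat.lt_succ_of_lt h2]
        · have : ¬ D < l.count a + 1 := by omega
          simp [h2, this]
    · have h0 : List.count c [a] = 0 := by
        rw [List.count_eq_zero]
        simp only [List.mem_singleton]
        exact fun h => hac h.symm
      by_cases h : l.count a = D
      · simp [h, ih, h0]
      · simp [h, ih, h0]

theorem mem_pop {D : ℕ} {U : List ℕ} {c : ℕ} : c ∈ pop D U ↔ D < U.count c := by
  rw [← List.count_pos_iff, pop_count]
  split_ifs with h <;> simp [h]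

theorem pop_nodup (D : ℕ) (U : List ℕ) : (pop D U).Nodup := by
  rw [List.nodup_iff_count_le_one]
  intro a
  rw [pop_count]
  split_ifs <;> omega

theorem pop_length (D : ℕ) (U : List ℕ) : (pop D U).length * (D + 1) ≤ U.length := by
  classical
  have h1 : (pop D U).toFinset ⊆ U.toFinset := by
    intro c hc
    rw [List.mem_toFinset, mem_pop] at hc
    rw [List.mem_toFinset, ← List.count_pos_iff]
    omega
  calc (pop D U).length * (D + 1) = ∑ _c ∈ (pop D U).toFinset, (D + 1) := by
        rw [Finset.sum_const, List.toFinset_card_of_nodup (pop_nodup D U), smul_eq_mul]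
    _ ≤ ∑ c ∈ (pop D U).toFinset, U.count c := by
        apply Finset.sum_le_sum
        intro c hc
        rw [List.mem_toFinset, mem_pop] at hc
        exact hc
    _ ≤ ∑ c ∈ U.toFinset, U.count c := Finset.sum_le_sum_of_subset h1
    _ = U.length := by
        exact List.sum_toFinset_count_eq_length U

/-- the `j`-th base `b` digit of `x` -/
def dig (b j x : ℕ) : ℕ := x / b ^ j % b

theorem dig_ofDigits {b : ℕ} (L : List ℕ) (hL : ∀ x ∈ L, x < b) {j : ℕ} (hj : j < L.length) :
    dig b j (Nat.ofDigits b L) = L.getD j 0 := by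
  have hb : 0 < b := lt_of_le_of_lt (Nat.zero_le _) (hL _ (List.getElem_mem hj))
  unfold dig
  rw [Nat.ofDigits_div_pow_eq_ofDigits_drop j hb L hL]
  have h2 := Nat.ofDigits_mod_pow_eq_ofDigits_take 1 hb (L.drop j)
    (fun l hl => hL l (List.mem_of_mem_drop hl))
  rw [pow_one] at h2
  rw [List.drop_eq_getElem_cons hj] at h2 ⊢
  rw [h2, List.take_succ_cons, List.take_zero]
  simp [hj]

theorem dig_lt {b : ℕ} (hb : 0 < b) (j x : ℕ) : dig b j x < b := Nat.mod_lt _ hb

/-! ### primitive recursiveness -/

theorem primrec_pow : Primrec₂ (fun b j : ℕ => b ^ j) :=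
  Primrec₂.unpaired'.1 Nat.Primrec.pow

theorem primrec_log (b : ℕ) (hb : 1 < b) : Primrec (Nat.log b) := by
  have h1 : PrimrecRel (fun n i : ℕ => b ^ i ≤ n) :=
    PrimrecRel.comp₂ Primrec.nat_le (primrec_pow.comp₂ (Primrec₂.const b) Primrec₂.right)
      Primrec₂.left
  have h := Primrec.nat_findGreatest (f := fun n : ℕ => n) Primrec.id h1
  refine h.of_eq ?_
  intro n
  rcases Nat.eq_zero_or_pos n with rfl | hn
  · simp
  · rw [Nat.findGreatest_eq_iff]
    refine ⟨Nat.log_le_self b n, fun _ => Nat.pow_log_le_self b hn.ne', ?_⟩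
    intro m hm _ h'
    exact absurd ((Nat.le_log_iff_pow_le hb hn.ne').2 h') (by omega)

theorem primrec_dig : Primrec (fun p : ℕ × ℕ × ℕ => dig p.1 p.2.1 p.2.2) := by
  unfold dig
  exact Primrec.nat_mod.comp (Primrec.nat_div.comp (Primrec.snd.comp Primrec.snd)
    (primrec_pow.comp Primrec.fst (Primrec.fst.comp Primrec.snd))) Primrec.fst

theorem primrec_count : Primrec₂ (fun (x : ℕ) (l : List ℕ) => l.count x) := by
  have h : Primrec (fun p : ℕ × List ℕ =>
      (p.2.filterMap (fun y => if y = p.1 then some y else none)).length) := by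
    refine Primrec.list_length.comp (Primrec.listFilterMap Primrec.snd ?_)
    refine Primrec₂.mk ?_
    exact Primrec.ite (PrimrecRel.comp Primrec.eq Primrec.snd (Primrec.fst.comp Primrec.fst))
      (Primrec.option_some.comp Primrec.snd) (Primrec.const none)
  refine Primrec₂.mk (h.of_eq ?_)
  intro p
  rcases p with ⟨x, l⟩
  simp only
  induction l with
  | nil => rfl
  | cons a l ih =>
    by_cases h : a = x
    · simp [h, ih]
    · simp [h, ih]

theorem primrec_pop : Primrec₂ pop := by
  unfold pop
  refine Primrec₂.mk ?_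
  refine Primrec.snd.comp ?_
  refine Primrec.list_foldl (f := fun p : ℕ × List ℕ => p.2)
    (g := fun _ : ℕ × List ℕ => (([] : List ℕ), ([] : List ℕ)))
    (h := fun (p : ℕ × List ℕ) (q : (List ℕ × List ℕ) × ℕ) => popStep p.1 q.1 q.2)
    Primrec.snd (Primrec.const _) ?_
  refine Primrec₂.mk ?_
  unfold popStep
  have hs1 : Primrec (fun a : (ℕ × List ℕ) × (List ℕ × List ℕ) × ℕ => a.2.1.1) :=
    Primrec.fst.comp (Primrec.fst.comp Primrec.snd)
  have hs2 : Primrec (fun a : (ℕ × List ℕ) × (List ℕ × List ℕ) × ℕ => a.2.1.2) :=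
    Primrec.snd.comp (Primrec.fst.comp Primrec.snd)
  have hx : Primrec (fun a : (ℕ × List ℕ) × (List ℕ × List ℕ) × ℕ => a.2.2) :=
    Primrec.snd.comp Primrec.snd
  have hD : Primrec (fun a : (ℕ × List ℕ) × (List ℕ × List ℕ) × ℕ => a.1.1) :=
    Primrec.fst.comp Primrec.fst
  refine Primrec.pair (Primrec.list_concat.comp hs1 hx) ?_
  exact Primrec.ite (PrimrecRel.comp Primrec.eq (primrec_count.comp hx hs1) hD)
    (Primrec.list_concat.comp hs2 hx) hs2

theorem primrec_ofDigits : Primrec₂ (fun (b : ℕ) (l : List ℕ) => Nat.ofDigits b l) := by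
  have h : Primrec (fun p : ℕ × List ℕ => p.2.foldr (fun d acc => d + p.1 * acc) 0) := by
    refine Primrec.list_foldr (f := fun p : ℕ × List ℕ => p.2) (g := fun _ => 0)
      (h := fun (p : ℕ × List ℕ) (q : ℕ × ℕ) => q.1 + p.1 * q.2) Primrec.snd
      (Primrec.const 0) ?_
    refine Primrec₂.mk ?_
    exact Primrec.nat_add.comp (Primrec.fst.comp Primrec.snd)
      (Primrec.nat_mul.comp (Primrec.fst.comp Primrec.fst) (Primrec.snd.comp Primrec.snd))
  refine Primrec₂.mk (h.of_eq ?_)
  intro p
  rcases p with ⟨b, l⟩
  simp only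
  induction l with
  | nil => simp
  | cons a l ih => simp [Nat.ofDigits_cons, ih]

end Pool.Agent.Lib.MP_2c929a_lc
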