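import Mathlib

/-! Basic closure properties of `ComputableIn` that are used for the mass problems `IOE(h)`. -/

namespace Pool.Agent.Lib.MP_2c929a_lc

open Encodable

variable {α β σ : Type*} [Primcodable α] [Primcodable β] [Primcodable σ]

theorem compIn {O : Set (ℕ →. ℕ)} {F : β → σ} {G : α → β}
    (hF : ComputableIn O F) (hG : ComputableIn O G) : ComputableIn O (fun a => F (G a)) := by
  have h := Nat.RecursiveIn.comp hF hG
  refine Nat.RecursiveIn.of_eq h ?_
  intro n
  cases hn : (decode n : Option α) with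
  | none => simp
  | some a => simp

theorem pairIn {O : Set (ℕ →. ℕ)} {F : α → β} {G : α → σ}
    (hF : ComputableIn O F) (hG : ComputableIn O G) : ComputableIn O (fun a => (F a, G a)) := by
  have h := Nat.RecursiveIn.pair hF hG
  refine Nat.RecursiveIn.of_eq h ?_
  intro n
  cases hn : (decode n : Option α) with
  | none => simp [Seq.seq]
  | some a => simp [Seq.seq]

theorem oracleIn (f : ℕ → ℕ) : ComputableIn {(f : ℕ →. ℕ)} f := by
  have h : Nat.RecursiveIn {(f : ℕ →. ℕ)} (f : ℕ →. ℕ) := Nat.RecursiveIn.oracle _ rfl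
  refine Nat.RecursiveIn.of_eq h ?_
  intro n
  simp

theorem ofIn {O : Set (ℕ →. ℕ)} {f : ℕ → ℕ} (h : ComputableIn O f) :
    RecursiveIn O (f : ℕ →. ℕ) := h

/-- the list of the first `n` values of the oracle is computable in the oracle -/
theorem prefixIn (f : ℕ → ℕ) : ComputableIn {(f : ℕ →. ℕ)} (fun n => (List.range n).map f) := by
  -- step function
  have hstep : ComputableIn {(f : ℕ →. ℕ)}
      (fun p : ℕ × ℕ × List ℕ => p.2.2 ++ [f p.2.1]) := by
    have h1 : ComputableIn {(f : ℕ →. ℕ)} (fun q : List ℕ × ℕ => q.1 ++ [q.2]) :=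
      (Computable.list_concat (α := ℕ)).computableIn
    have h2 : ComputableIn {(f : ℕ →. ℕ)} (fun p : ℕ × ℕ × List ℕ => (p.2.2, f p.2.1)) := by
      refine pairIn ?_ ?_
      · exact ((Primrec.snd.comp Primrec.snd)).computableIn
      · exact compIn (oracleIn f) ((Primrec.fst.comp Primrec.snd)).computableIn
    exact compIn h1 h2
  have h0 : Nat.RecursiveIn {(f : ℕ →. ℕ)} (fun _ => (encode ([] : List ℕ) : ℕ)) :=
    (Nat.Primrec.const _).recursiveIn
  have hrec := Nat.RecursiveIn.prec h0 hstep
  have hin : Nat.RecursiveIn {(f : ℕ →. ℕ)} (fun n : ℕ => ((Nat.pair 0 n : ℕ) : Part ℕ)) := by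
    have : Nat.Primrec (fun n => Nat.pair 0 n) := by
      exact Nat.Primrec.pair (Nat.Primrec.const 0) Nat.Primrec.id
    exact this.recursiveIn
  have h := Nat.RecursiveIn.comp hrec hin
  refine Nat.RecursiveIn.of_eq h ?_
  intro n
  simp only [Part.coe_some, Part.bind_eq_bind, Part.bind_some, Nat.unpair_pair,
    Encodable.decode_nat, Part.map_some]
  induction n with
  | zero => simp
  | succ n ih =>
    simp only [ih]
    simp [List.range_succ]

end Pool.Agent.Lib.MP_2c929a_lc
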