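import Mathlib
import Pool.Agent.Lib.MP_2c929a_lc.Oracle
import Pool.Agent.Lib.MP_2c929a_lc.Comb

/-! The two-stage coding step. -/

namespace Pool.Agent.Lib.MP_2c929a_lc

open Filter

/-- `f` is infinitely often equal to every computable function below `h`. -/
def IsIOE (h f : ℕ → ℕ) : Prop :=
  ∀ r : ℕ → ℕ, Computable r → (∀ n, r n < h n) → ∃ᶠ n in atTop, f n = r n

/-- first stage: list the popular values of the low halves -/
def T0 (n b : ℕ) (L : List ℕ) : ℕ :=
  dig b (n - 2 ^ Nat.log 2 n)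
    ((pop (2 ^ Nat.log 2 n)
      ((L.drop (4 ^ (Nat.log 2 n - 1))).map (fun v => v % b ^ 2 ^ Nat.log 2 n))).getD
        (n - 2 ^ Nat.log 2 n) 0)

/-- second stage: list the high halves of those values whose low half is `S` -/
def T1 (n b S : ℕ) (L : List ℕ) : ℕ :=
  dig b (n - 2 ^ Nat.log 2 n)
    (((L.drop (4 ^ (Nat.log 2 n - 1))).filterMap
      (fun v => if v % b ^ 2 ^ Nat.log 2 n = S then some (v / b ^ 2 ^ Nat.log 2 n) else none)).getD
        (n - 2 ^ Nat.log 2 n) 0)

theorem primrec_two_pow_log : Primrec (fun n : ℕ => 2 ^ Nat.log 2 n) :=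
  primrec_pow.comp (Primrec.const 2) (primrec_log 2 (by norm_num))

theorem primrec_T0 : Primrec (fun p : ℕ × ℕ × List ℕ => T0 p.1 p.2.1 p.2.2) := by
  have hn : Primrec (fun p : ℕ × ℕ × List ℕ => p.1) := Primrec.fst
  have hb : Primrec (fun p : ℕ × ℕ × List ℕ => p.2.1) := Primrec.fst.comp Primrec.snd
  have hL : Primrec (fun p : ℕ × ℕ × List ℕ => p.2.2) := Primrec.snd.comp Primrec.snd
  have hD : Primrec (fun p : ℕ × ℕ × List ℕ => 2 ^ Nat.log 2 p.1) :=
    primrec_two_pow_log.comp hn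
  have hj : Primrec (fun p : ℕ × ℕ × List ℕ => p.1 - 2 ^ Nat.log 2 p.1) :=
    Primrec.nat_sub.comp hn hD
  have hW : Primrec (fun p : ℕ × ℕ × List ℕ => p.2.1 ^ 2 ^ Nat.log 2 p.1) :=
    primrec_pow.comp hb hD
  have h4 : Primrec (fun p : ℕ × ℕ × List ℕ => 4 ^ (Nat.log 2 p.1 - 1)) :=
    primrec_pow.comp (Primrec.const 4) (Primrec.nat_sub.comp
      ((primrec_log 2 (by norm_num)).comp hn) (Primrec.const 1))
  have hdrop : Primrec (fun p : ℕ × ℕ × List ℕ => p.2.2.drop (4 ^ (Nat.log 2 p.1 - 1))) :=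
    Primrec.list_drop.comp h4 hL
  have hmap : Primrec (fun p : ℕ × ℕ × List ℕ =>
      (p.2.2.drop (4 ^ (Nat.log 2 p.1 - 1))).map (fun v => v % p.2.1 ^ 2 ^ Nat.log 2 p.1)) :=
    Primrec.list_map hdrop (Primrec₂.mk (Primrec.nat_mod.comp Primrec.snd (hW.comp Primrec.fst)))
  exact primrec_dig.comp (Primrec.pair hb (Primrec.pair hj
    ((Primrec.list_getD 0).comp (primrec_pop.comp hD hmap) hj)))

theorem primrec_T1 : Primrec (fun p : ℕ × ℕ × ℕ × List ℕ => T1 p.1 p.2.1 p.2.2.1 p.2.2.2) := by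
  have hn : Primrec (fun p : ℕ × ℕ × ℕ × List ℕ => p.1) := Primrec.fst
  have hb : Primrec (fun p : ℕ × ℕ × ℕ × List ℕ => p.2.1) := Primrec.fst.comp Primrec.snd
  have hS : Primrec (fun p : ℕ × ℕ × ℕ × List ℕ => p.2.2.1) :=
    Primrec.fst.comp (Primrec.snd.comp Primrec.snd)
  have hL : Primrec (fun p : ℕ × ℕ × ℕ × List ℕ => p.2.2.2) :=
    Primrec.snd.comp (Primrec.snd.comp Primrec.snd)
  have hD : Primrec (fun p : ℕ × ℕ × ℕ × List ℕ => 2 ^ Nat.log 2 p.1) :=
    primrec_two_pow_log.comp hn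
  have hj : Primrec (fun p : ℕ × ℕ × ℕ × List ℕ => p.1 - 2 ^ Nat.log 2 p.1) :=
    Primrec.nat_sub.comp hn hD
  have hW : Primrec (fun p : ℕ × ℕ × ℕ × List ℕ => p.2.1 ^ 2 ^ Nat.log 2 p.1) :=
    primrec_pow.comp hb hD
  have h4 : Primrec (fun p : ℕ × ℕ × ℕ × List ℕ => 4 ^ (Nat.log 2 p.1 - 1)) :=
    primrec_pow.comp (Primrec.const 4) (Primrec.nat_sub.comp
      ((primrec_log 2 (by norm_num)).comp hn) (Primrec.const 1))
  have hdrop : Primrec (fun p : ℕ × ℕ × ℕ × List ℕ => p.2.2.2.drop (4 ^ (Nat.log 2 p.1 - 1))) :=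
    Primrec.list_drop.comp h4 hL
  have hfm : Primrec (fun p : ℕ × ℕ × ℕ × List ℕ =>
      (p.2.2.2.drop (4 ^ (Nat.log 2 p.1 - 1))).filterMap
        (fun v => if v % p.2.1 ^ 2 ^ Nat.log 2 p.1 = p.2.2.1
          then some (v / p.2.1 ^ 2 ^ Nat.log 2 p.1) else none)) := by
    refine Primrec.listFilterMap hdrop (Primrec₂.mk ?_)
    refine Primrec.ite (PrimrecRel.comp Primrec.eq
      (Primrec.nat_mod.comp Primrec.snd (hW.comp Primrec.fst)) (hS.comp Primrec.fst)) ?_
      (Primrec.const none)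
    exact Primrec.option_some.comp (Primrec.nat_div.comp Primrec.snd (hW.comp Primrec.fst))
  exact primrec_dig.comp (Primrec.pair hb (Primrec.pair hj
    ((Primrec.list_getD 0).comp hfm hj)))

/-- prefix of a computable function is computable -/
theorem prefix_computable {s : ℕ → ℕ} (hs : Computable s) :
    Computable (fun n => (List.range n).map s) := by
  have h : Computable (fun n : ℕ => (Nat.rec ([] : List ℕ)
      (fun y IH => IH ++ [s y]) n : List ℕ)) := by
    refine Computable.nat_rec (f := fun n : ℕ => n) (g := fun _ : ℕ => ([] : List ℕ))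
      (h := fun (_ : ℕ) (p : ℕ × List ℕ) => p.2 ++ [s p.1]) Computable.id (Computable.const _) ?_
    exact (Computable.list_concat).comp (Computable.snd.comp Computable.snd)
      (hs.comp (Computable.fst.comp Computable.snd))
  refine h.of_eq ?_
  intro n
  induction n with
  | zero => rfl
  | succ n ih => simp only [ih]; simp [List.range_succ]

/-- code of the restriction of `s` to `[2^i, 2^(i+1))` in base `B i` -/
def code (B s : ℕ → ℕ) (i : ℕ) : ℕ :=
  Nat.ofDigits (B i) (((List.range (2 ^ (i + 1))).map s).drop (2 ^ i))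

theorem code_computable {B s : ℕ → ℕ} (hB : Computable B) (hs : Computable s) :
    Computable (code B s) := by
  unfold code
  have h2 : Primrec (fun i : ℕ => 2 ^ i) := primrec_pow.comp (Primrec.const 2) Primrec.id
  have h1 : Computable (fun i : ℕ => (List.range (2 ^ (i + 1))).map s) :=
    (prefix_computable hs).comp (h2.comp Primrec.succ).to_comp
  exact primrec_ofDigits.to_comp.comp hB
    (Primrec.list_drop.to_comp.comp h2.to_comp h1)

theorem code_list_length (s : ℕ → ℕ) (i : ℕ) :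
    (((List.range (2 ^ (i + 1))).map s).drop (2 ^ i)).length = 2 ^ i := by
  simp [pow_succ]; omega

theorem code_list_getD (s : ℕ → ℕ) (i j : ℕ) (hj : j < 2 ^ i) :
    (((List.range (2 ^ (i + 1))).map s).drop (2 ^ i)).getD j 0 = s (2 ^ i + j) := by
  have h : 2 ^ i + j < 2 ^ (i + 1) := by rw [pow_succ]; omega
  simp [List.getD_eq_getElem?_getD, List.getElem?_drop, List.getElem?_map, h]

theorem code_list_lt {B s : ℕ → ℕ} {i : ℕ} (hs : ∀ n, Nat.log 2 n = i → n ≠ 0 → s n < B i) :
    ∀ x ∈ ((List.range (2 ^ (i + 1))).map s).drop (2 ^ i), x < B i := by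
  intro x hx
  obtain ⟨j, hj, rfl⟩ := List.mem_iff_getElem.1 hx
  have hj' : j < 2 ^ i := by rwa [code_list_length] at hj
  have h1 := code_list_getD s i j hj'
  rw [List.getD_eq_getElem _ _ hj] at h1
  rw [h1]
  apply hs
  · rw [Nat.log_eq_iff (Or.inr ⟨by norm_num, by positivity⟩)]
    exact ⟨by omega, by rw [pow_succ]; omega⟩
  · have : 0 < 2 ^ i := by positivity
    omega

theorem code_lt {B s : ℕ → ℕ} {i : ℕ} (hs : ∀ n, Nat.log 2 n = i → n ≠ 0 → s n < B i) :
    code B s i < B i ^ 2 ^ i := by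
  by_cases hB : 1 < B i
  · have h := Nat.ofDigits_lt_base_pow_length hB (code_list_lt hs)
    rw [code_list_length] at h
    exact h
  · have h1 : s (2 ^ i) < B i := hs (2 ^ i) (Nat.log_pow (by norm_num) i) (by positivity)
    have h2 : B i = 1 := by omega
    unfold code
    rw [h2, one_pow]
    have h3 := code_list_lt hs
    rw [h2] at h3
    have h4 : ∀ L : List ℕ, (∀ x ∈ L, x < 1) → Nat.ofDigits 1 L = 0 := by
      intro L
      induction L with
      | nil => simp
      | cons a L ih =>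
        intro h
        rw [Nat.ofDigits_cons, ih (fun x hx => h x (List.mem_cons_of_mem _ hx))]
        have := h a List.mem_cons_self
        simp; omega
    rw [h4 _ h3]
    norm_num

theorem dig_code {B s : ℕ → ℕ} {i j : ℕ} (hs : ∀ n, Nat.log 2 n = i → n ≠ 0 → s n < B i)
    (hj : j < 2 ^ i) : dig (B i) j (code B s i) = s (2 ^ i + j) := by
  unfold code
  rw [dig_ofDigits _ (code_list_lt hs) (by rw [code_list_length]; exact hj)]
  exact code_list_getD s i j hj

end Pool.Agent.Lib.MP_2c929a_lc
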