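import Mathlib
import Pool.Agent.Lib.MP_2c929a_lc.Step

/-! The main reduction lemma. -/

namespace Pool.Agent.Lib.MP_2c929a_lc

open Filter

theorem log_block {i j : ℕ} (hj : j < 2 ^ i) : Nat.log 2 (2 ^ i + j) = i := by
  rw [Nat.log_eq_iff (Or.inr ⟨by norm_num, by positivity⟩)]
  exact ⟨by omega, by rw [pow_succ]; omega⟩

theorem filterMap_length (V : List ℕ) (W S : ℕ) :
    (V.filterMap (fun v => if v % W = S then some (v / W) else none)).length =
      (V.map (fun v => v % W)).count S := by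
  induction V with
  | nil => rfl
  | cons a V ih =>
    by_cases h : a % W = S
    · simp [h, ih]
    · simp [h, ih]

theorem step (h g B : ℕ → ℕ) (hB : Computable B)
    (hgB : ∀ n, n ≠ 0 → g n ≤ B (Nat.log 2 n)) (i0 : ℕ)
    (hBh : ∀ l, l ≠ 0 → i0 ≤ Nat.log 4 l + 1 →
      (B (Nat.log 4 l + 1)) ^ (2 * 2 ^ (Nat.log 4 l + 1)) ≤ h l)
    (hh : ∀ n, 0 < h n) (f : ℕ → ℕ) (hf : IsIOE h f) :
    ∃ t : ℕ → ℕ, IsIOE g t ∧ RecursiveIn {(f : ℕ →. ℕ)} (t : ℕ →. ℕ) := by
  classical
  -- general facts on computability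
  have hlog2 : Primrec (Nat.log 2) := primrec_log 2 (by norm_num)
  have hlog4 : Primrec (Nat.log 4) := primrec_log 4 (by norm_num)
  have hpre : ComputableIn {(f : ℕ →. ℕ)}
      (fun n => (List.range (4 ^ Nat.log 2 n)).map f) :=
    compIn (F := fun n => (List.range n).map f) (G := fun n => 4 ^ Nat.log 2 n)
      (prefixIn f) (primrec_pow.comp (Primrec.const 4) hlog2).computableIn
  have hBlog : Computable (fun n => B (Nat.log 2 n)) := hB.comp hlog2.to_comp
  -- first candidate
  set t0 : ℕ → ℕ := fun n =>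
    T0 n (B (Nat.log 2 n)) ((List.range (4 ^ Nat.log 2 n)).map f) with ht0
  have ht0c : ComputableIn {(f : ℕ →. ℕ)} t0 := by
    have h1 : ComputableIn {(f : ℕ →. ℕ)} (fun n =>
        (n, B (Nat.log 2 n), (List.range (4 ^ Nat.log 2 n)).map f)) :=
      pairIn Computable.id.computableIn (pairIn hBlog.computableIn hpre)
    have h2 := compIn (F := fun p : ℕ × ℕ × List ℕ => T0 p.1 p.2.1 p.2.2)
      (O := {(f : ℕ →. ℕ)}) primrec_T0.computableIn h1
    simp only [] at h2
    exact h2
  by_cases c0 : IsIOE g t0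
  · exact ⟨t0, c0, ht0c⟩
  -- the first candidate fails: there is a computable `s` avoided by it
  unfold IsIOE at c0
  push Not at c0
  obtain ⟨s, hsc, hsg, hs⟩ := c0
  rw [Filter.eventually_atTop] at hs
  obtain ⟨n0, hn0⟩ := hs
  set t1 : ℕ → ℕ := fun n =>
    T1 n (B (Nat.log 2 n)) (code B s (Nat.log 2 n)) ((List.range (4 ^ Nat.log 2 n)).map f)
    with ht1
  have hcode : Computable (fun n => code B s (Nat.log 2 n)) :=
    (code_computable hB hsc).comp hlog2.to_comp
  have ht1c : ComputableIn {(f : ℕ →. ℕ)} t1 := by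
    have h1 : ComputableIn {(f : ℕ →. ℕ)} (fun n =>
        (n, B (Nat.log 2 n), code B s (Nat.log 2 n), (List.range (4 ^ Nat.log 2 n)).map f)) :=
      pairIn Computable.id.computableIn
        (pairIn hBlog.computableIn (pairIn hcode.computableIn hpre))
    have h2 := compIn (F := fun p : ℕ × ℕ × ℕ × List ℕ => T1 p.1 p.2.1 p.2.2.1 p.2.2.2)
      (O := {(f : ℕ →. ℕ)}) primrec_T1.computableIn h1
    simp only [] at h2
    exact h2
  refine ⟨t1, ?_, ht1c⟩
  intro s' hs'c hs'g
  have hsB : ∀ i, ∀ n, Nat.log 2 n = i → n ≠ 0 → s n < B i := by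
    intro i n hn hn'
    rw [← hn]
    exact lt_of_lt_of_le (hsg n) (hgB n hn')
  have hs'B : ∀ i, ∀ n, Nat.log 2 n = i → n ≠ 0 → s' n < B i := by
    intro i n hn hn'
    rw [← hn]
    exact lt_of_lt_of_le (hs'g n) (hgB n hn')
  -- the computable function to be guessed by `f`
  set r : ℕ → ℕ := fun l => if l = 0 ∨ Nat.log 4 l + 1 < i0 then 0 else
    code B s (Nat.log 4 l + 1) + B (Nat.log 4 l + 1) ^ 2 ^ (Nat.log 4 l + 1) *
      code B s' (Nat.log 4 l + 1) with hr
  have hrc : Computable r := by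
    have hi : Primrec (fun l => Nat.log 4 l + 1) := Primrec.succ.comp hlog4
    have hp : PrimrecPred (fun l => l = 0 ∨ Nat.log 4 l + 1 < i0) :=
      (PrimrecRel.comp Primrec.eq Primrec.id (Primrec.const 0)).or
        (PrimrecRel.comp Primrec.nat_lt hi (Primrec.const i0))
    have hval : Computable (fun l => code B s (Nat.log 4 l + 1) +
        B (Nat.log 4 l + 1) ^ 2 ^ (Nat.log 4 l + 1) * code B s' (Nat.log 4 l + 1)) := by
      have h2 : Computable (fun l => 2 ^ (Nat.log 4 l + 1)) :=
        (primrec_pow.comp (Primrec.const 2) hi).to_comp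
      exact Primrec.nat_add.to_comp.comp ((code_computable hB hsc).comp hi.to_comp)
        (Primrec.nat_mul.to_comp.comp
          (primrec_pow.to_comp.comp (hB.comp hi.to_comp) h2)
          ((code_computable hB hs'c).comp hi.to_comp))
    have := Computable.cond (Primrec.to_comp hp.decide) (Computable.const 0) hval
    refine this.of_eq ?_
    intro l
    simp only [hr]
    by_cases hl : l = 0 ∨ Nat.log 4 l + 1 < i0
    · simp [hl]
    · simp only [hl, decide_false, cond_false, if_false]
  have hrh : ∀ l, r l < h l := by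
    intro l
    simp only [hr]
    split_ifs with hl
    · exact hh l
    · push Not at hl
      have h1 := hBh l hl.1 hl.2
      have h2 := code_lt (hsB (Nat.log 4 l + 1))
      have h3 := code_lt (hs'B (Nat.log 4 l + 1))
      set W := B (Nat.log 4 l + 1) ^ 2 ^ (Nat.log 4 l + 1) with hW
      refine lt_of_lt_of_le ?_ h1
      rw [mul_comm 2, pow_mul, ← hW]
      calc code B s (Nat.log 4 l + 1) + W * code B s' (Nat.log 4 l + 1)
          < W + W * code B s' (Nat.log 4 l + 1) := by omega
        _ = W * (code B s' (Nat.log 4 l + 1) + 1) := by ring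
        _ ≤ W * W := Nat.mul_le_mul_left _ h3
        _ = W ^ 2 := by ring
  have hfr := hf r hrc hrh
  rw [Filter.frequently_atTop] at hfr ⊢
  intro a
  obtain ⟨l, hl, hfl⟩ := hfr (4 ^ (a + n0 + i0))
  have hl0 : l ≠ 0 := by
    have : 0 < 4 ^ (a + n0 + i0) := by positivity
    omega
  have hlog : a + n0 + i0 ≤ Nat.log 4 l := (Nat.le_log_iff_pow_le (by norm_num) hl0).2 hl
  set i := Nat.log 4 l + 1 with hi
  have hl1 : 4 ^ (i - 1) ≤ l := by
    rw [hi, Nat.add_sub_cancel]; exact Nat.pow_log_le_self 4 hl0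
  have hl2 : l < 4 ^ i := Nat.lt_pow_succ_log_self (by norm_num) l
  have hi2 : i < 2 ^ i := Nat.lt_two_pow_self
  have hrl : r l = code B s i + B i ^ 2 ^ i * code B s' i := by
    simp only [hr]
    rw [if_neg]
    push Not
    exact ⟨hl0, by omega⟩
  set W := B i ^ 2 ^ i with hW
  have hcs : code B s i < W := code_lt (hsB i)
  have hcs' : code B s' i < W := code_lt (hs'B i)
  have hWpos : 0 < W := by omega
  set V := ((List.range (4 ^ i)).map f).drop (4 ^ (i - 1)) with hV
  have hVlen : V.length = 4 ^ i - 4 ^ (i - 1) := by simp [hV]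
  have h4i : 4 ^ i = 2 ^ i * 2 ^ i := by
    rw [← mul_pow]; norm_num
  have hVle : V.length < 2 ^ i * (2 ^ i + 1) := by
    have h1 : 0 < 2 ^ i := by positivity
    have h2 : 2 ^ i * (2 ^ i + 1) = 2 ^ i * 2 ^ i + 2 ^ i := by ring
    rw [hVlen, h4i, h2]
    generalize 2 ^ i * 2 ^ i = z
    generalize 4 ^ (i - 1) = y
    generalize 2 ^ i = w at h1
    omega
  -- `code B s i` is not popular
  have hnot : ¬ (2 ^ i < (V.map (fun v => v % W)).count (code B s i)) := by
    intro hpop
    rw [← mem_pop] at hpop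
    obtain ⟨j, hj, hjeq⟩ := List.mem_iff_getElem.1 hpop
    have hlen := pop_length (2 ^ i) (V.map (fun v => v % W))
    rw [List.length_map] at hlen
    have hjlt : j < 2 ^ i := by
      by_contra hcon
      push Not at hcon
      have : 2 ^ i * (2 ^ i + 1) ≤ (pop (2 ^ i) (V.map (fun v => v % W))).length * (2 ^ i + 1) :=
        Nat.mul_le_mul_right _ (by omega)
      omega
    have hb := hn0 (2 ^ i + j) (by omega)
    apply hb
    simp only [ht0, T0, log_block hjlt]
    rw [Nat.add_sub_cancel_left, ← hV, ← hW, List.getD_eq_getElem _ _ hj, hjeq]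
    exact dig_code (hsB i) hjlt
  -- hence `t1` guesses `s'` in this block
  set M := V.filterMap (fun v => if v % W = code B s i then some (v / W) else none) with hM
  have hMlen : M.length ≤ 2 ^ i := by
    rw [hM, filterMap_length]; omega
  have hflV : f l ∈ V := by
    rw [hV, List.mem_iff_getElem]
    refine ⟨l - 4 ^ (i - 1), ?_, ?_⟩
    · simp; omega
    · simp [Nat.add_sub_cancel' hl1]
  have hmem : code B s' i ∈ M := by
    rw [hM, List.mem_filterMap]
    refine ⟨f l, hflV, ?_⟩
    rw [hfl, hrl]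
    rw [Nat.add_mul_mod_self_left, Nat.mod_eq_of_lt hcs, if_pos rfl,
      Nat.add_mul_div_left _ _ hWpos, Nat.div_eq_of_lt hcs, zero_add]
  obtain ⟨j, hj, hjeq⟩ := List.mem_iff_getElem.1 hmem
  have hjlt : j < 2 ^ i := lt_of_lt_of_le hj hMlen
  refine ⟨2 ^ i + j, by omega, ?_⟩
  simp only [ht1, T1, log_block hjlt]
  rw [Nat.add_sub_cancel_left, ← hV, ← hW, ← hM, List.getD_eq_getElem _ _ hj, hjeq]
  exact dig_code (hs'B i) hjlt

end Pool.Agent.Lib.MP_2c929a_lc
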